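import Pool.Agent.Helper42.RD.Goals1
import Pool.Agent.Helper40.RS.Gal

/-!
# Project RD, packet ORB: adding an orbit to the datum
-/

namespace Pool.Agent.Helper13.RD

open NumberField Polynomial Module IsDedekindDomain Pool.Agent.Helper51.RP Pool.Agent.Helper42.RD
open Pool.Agent.Helper40.RS (bel gw gw_inj efg absNorm_free val_smul bel_smul lies)
open scoped Pointwise

section

variable {K M : Type} [Field K] [Field M] [NumberField M] [Algebra K M]

theorem conj_refl (w : HeightOneSpectrum (𝓞 M)) : ConjP K w w := ⟨1, fun _ => rfl⟩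

theorem conj_symm {w w' : HeightOneSpectrum (𝓞 M)} (h : ConjP K w w') : ConjP K w' w := by
  obtain ⟨g, hg⟩ := h
  refine ⟨g⁻¹, fun y => ?_⟩
  rw [← hg]
  congr 1
  show (g * g⁻¹) y = y
  rw [mul_inv_cancel]
  rfl

theorem conj_trans {w w' w'' : HeightOneSpectrum (𝓞 M)} (h : ConjP K w w')
    (h' : ConjP K w' w'') : ConjP K w w'' := by
  obtain ⟨g, hg⟩ := h
  obtain ⟨g', hg'⟩ := h'
  refine ⟨g * g', fun y => ?_⟩
  show w.valuation M (g (g' y)) = _
  rw [hg, hg']

theorem eq_of_val {w w' : HeightOneSpectrum (𝓞 M)}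
    (h : ∀ y : M, w.valuation M y = w'.valuation M y) : w = w' := by
  apply HeightOneSpectrum.ext
  ext x
  rw [← HeightOneSpectrum.valuation_lt_one_iff_mem (K := M) w x,
    ← HeightOneSpectrum.valuation_lt_one_iff_mem (K := M) w' x, h]

variable [NumberField K] [IsGalois K M]

theorem eq_gw {w 𝔮 : HeightOneSpectrum (𝓞 M)} (g : M ≃ₐ[K] M)
    (hg : ∀ y : M, w.valuation M (g y) = 𝔮.valuation M y) : w = gw g 𝔮 := by
  apply eq_of_val
  intro y
  have h1 := val_smul g 𝔮 (gw g 𝔮) rfl (g⁻¹ y)
  have h2 := hg (g⁻¹ y)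
  have h3 : g (g⁻¹ y) = y := by
    show (g * g⁻¹) y = y
    rw [mul_inv_cancel]
    rfl
  rw [h3] at h1 h2
  rw [h1, h2]

theorem ram_free (w : HeightOneSpectrum (𝓞 M)) (hf : FreeP K w) :
    (bel K w).asIdeal.ramificationIdx' w.asIdeal = 1 := by
  have h1 := efg (K := K) w
  have h2 : finrank K M ≤ ((bel K w).asIdeal.primesOver (𝓞 M)).ncard := by
    rw [← IsGalois.card_aut_eq_finrank K M, ← Nat.card_coe_set_eq]
    have hfin : Finite ((bel K w).asIdeal.primesOver (𝓞 M)) :=
      (IsDedekindDomain.primesOver_finite (bel K w).asIdeal (𝓞 M))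
    refine Nat.card_le_card_of_injective
      (fun g : M ≃ₐ[K] M => (⟨g • w.asIdeal, (gw g w).isPrime, ?_⟩ :
        (bel K w).asIdeal.primesOver (𝓞 M))) ?_
    · have : bel K (gw g w) = bel K w := bel_smul g w (gw g w) rfl
      rw [← this]
      exact lies (K := K) (gw g w)
    · intro g g' h
      apply gw_inj w hf
      apply HeightOneSpectrum.ext
      exact congrArg Subtype.val h
  have h3 : 0 < finrank K M := finrank_pos
  have h4 : w.asIdeal.ramificationIdx (𝓞 K) * w.asIdeal.inertiaDeg (𝓞 K) = 1 := by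
    have h5 : w.asIdeal.ramificationIdx (𝓞 K) * w.asIdeal.inertiaDeg (𝓞 K) ≠ 0 := by
      intro h0
      rw [h0, mul_zero] at h1
      omega
    by_contra hne
    have h6 : 2 ≤ w.asIdeal.ramificationIdx (𝓞 K) * w.asIdeal.inertiaDeg (𝓞 K) := by omega
    have h7 := Nat.mul_le_mul h2 h6
    rw [h1] at h7
    omega
  rw [Ideal.ramificationIdx'_eq_ramificationIdx _ _ (bel K w).ne_bot]
  exact Nat.eq_one_of_mul_eq_one_right h4

/-- A uniformizer in `K` at a prime with trivial decomposition group. -/
theorem exists_unif (w : HeightOneSpectrum (𝓞 M)) (hf : FreeP K w) :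
    ∃ π : K, w.valuation M (algebraMap K M π) = WithZero.exp (-1 : ℤ) := by
  obtain ⟨π, hπ⟩ := (bel K w).valuation_exists_uniformizer K
  refine ⟨π, ?_⟩
  have := lies (K := K) w
  rw [← (bel K w).valuation_liesOver M w, ram_free w hf, pow_one, hπ]

end

theorem d_orb : D_ORB := by
  classical
  intro p _ K M _ _ _ _ _ _ R al hR 𝔮 hq hf hqp hqn
  obtain ⟨π, hπ⟩ := exists_unif (K := K) 𝔮 hf
  refine ⟨fun w => if w ∈ R then al w else π, ?_, fun w hw => if_pos hw⟩
  constructor
  · refine hR.fin.union ?_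
    refine (Set.finite_range (fun g : M ≃ₐ[K] M => gw g 𝔮)).subset ?_
    rintro w ⟨g, hg⟩
    exact ⟨g, (eq_gw g hg).symm⟩
  · rintro w (hw | hw) w' hw'
    · exact Or.inl (hR.stable w hw w' hw')
    · exact Or.inr (conj_trans hw' hw)
  · rintro w (hw | ⟨g, hg⟩)
    · exact hR.free w hw
    · intro h hh
      have h2 := hf (g⁻¹ * h * g) (fun y => by
        rw [← hg]
        have h3 : g ((g⁻¹ * h * g) y) = h (g y) := by
          show (g * (g⁻¹ * h * g)) y = (h * g) y
          congr 1
          group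
        rw [h3, hh, hg])
      have h4 : h = g * (g⁻¹ * h * g) * g⁻¹ := by group
      rw [h4, h2]
      group
  · rintro w (hw | ⟨g, hg⟩)
    · exact hR.copr w hw
    · have h1 := hg (p : M)
      have h2 : g (p : M) = (p : M) := map_natCast g p
      rw [h2, hqp] at h1
      exact h1
  · rintro w (hw | ⟨g, hg⟩)
    · exact hR.norm w hw
    · have e := eq_gw g hg
      have hfw : FreeP K w := by
        intro h hh
        have h2 := hf (g⁻¹ * h * g) (fun y => by
          rw [← hg]
          have h3 : g ((g⁻¹ * h * g) y) = h (g y) := by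
            show (g * (g⁻¹ * h * g)) y = (h * g) y
            congr 1
            group
          rw [h3, hh, hg])
        have h4 : h = g * (g⁻¹ * h * g) * g⁻¹ := by group
        rw [h4, h2]
        group
      have h1 : bel K w = bel K 𝔮 := by
        rw [e]
        exact bel_smul g 𝔮 (gw g 𝔮) rfl
      rw [absNorm_free (K := K) w hfw, h1, ← absNorm_free (K := K) 𝔮 hf]
      exact hqn
  · intro w hw
    by_cases hwR : w ∈ R
    · simp only [if_pos hwR]
      exact hR.unif w hwR
    · simp only [if_neg hwR]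
      obtain ⟨g, hg⟩ := hw.resolve_left hwR
      have h1 := hg (algebraMap K M π)
      rw [AlgEquiv.commutes, hπ] at h1
      unfold ordv
      rw [h1, WithZero.log_exp]
      norm_num
  · intro w hw w' hw'
    by_cases hwR : w ∈ R
    · have hw'R : w' ∈ R := hR.stable w hwR w' hw'
      simp only [if_pos hwR, if_pos hw'R]
      exact hR.const w hwR w' hw'
    · have hw'R : w' ∉ R := fun h => hwR (hR.stable w' h w (conj_symm hw'))
      simp only [if_neg hwR, if_neg hw'R]

end Pool.Agent.Helper13.RD
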