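import Pool.Agent.Helper42.RD.Goals2
import Pool.Agent.Helper42.RS.RAM

/-!
# Project RD, packet MAT: `Sel(a) ⊆ SelD` if `a` matches the datum
-/

namespace Pool.Agent.Helper13.RD

open NumberField Polynomial Module IsDedekindDomain Pool.Agent.Helper51.RP Pool.Agent.Helper42.RD

section one

variable {F : Type} [Field F] [NumberField F] {W : HeightOneSpectrum (𝓞 F)}

theorem val_of_one {u : F} (h : W.valuation F (u - 1) < 1) : W.valuation F u = 1 := by
  have h1 := Valuation.map_add_eq_of_lt_right (W.valuation F) (x := u - 1) (y := 1)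
    (by rw [map_one]; exact h)
  rw [sub_add_cancel, map_one] at h1
  exact h1

theorem one_mul_one {u v : F} (hu : W.valuation F (u - 1) < 1) (hv : W.valuation F (v - 1) < 1) :
    W.valuation F (u * v - 1) < 1 := by
  have h1 : u * v - 1 = (u - 1) * v + (v - 1) := by ring
  rw [h1]
  refine Valuation.map_add_lt _ ?_ hv
  rw [map_mul, val_of_one hv, mul_one]
  exact hu

theorem one_inv_one {v : F} (hv : W.valuation F (v - 1) < 1) : W.valuation F (v⁻¹ - 1) < 1 := by
  have hv1 := val_of_one hv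
  have hv0 : v ≠ 0 := by
    rintro rfl
    rw [map_zero] at hv1
    exact zero_ne_one hv1
  have h1 : v⁻¹ - 1 = -((v - 1) * v⁻¹) := by
    rw [sub_mul, mul_inv_cancel₀ hv0, one_mul]
    ring
  rw [h1, Valuation.map_neg, map_mul, map_inv₀, hv1, inv_one, mul_one]
  exact hv

theorem one_pow_one {v : F} (hv : W.valuation F (v - 1) < 1) (n : ℕ) :
    W.valuation F (v ^ n - 1) < 1 := by
  induction n with
  | zero => rw [pow_zero, sub_self, map_zero]; exact zero_lt_one
  | succ n ih => rw [pow_succ]; exact one_mul_one ih hv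

end one

theorem e_mat (h1 : S_NSP) (h2 : E_TRF) : E_MAT := by
  intro p hp k _ _ L K M M₁ _ _ _ _ _ _ _ _ _ _ hcop m δ ζ Φ P hPhi hord hfr T R al hR a ha hM x hx
  have hp' : p.Prime := hp.out
  refine ⟨hx.pol, fun w => ⟨fun hw => ?_, fun hw => ?_⟩, hx.sig⟩
  · by_cases hf : FreeP K w
    · obtain ⟨W, hW⟩ := Pool.Agent.Helper42.RS.exists_above (M := M) (H := M₁) w
      have hab : Above W w := hW.over.symm
      have h3 : (p : ℤ) ∣ ordv W a := hM.free W w hab hf hw
      have h4 := (hx.loc W).1 h3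
      exact ((h2 p M M₁ hcop W w hab).1 _).1 h4
    · exact h1 p k K M m δ ζ Φ P hPhi hord hfr w hf x hx.pol
  · obtain ⟨W, hW, hWa, j, z, hz⟩ := hM.ram w hw
    obtain ⟨i, y, hy⟩ := (hx.loc W).2 hWa
    refine ⟨(p - 1) * (i * j), ?_⟩
    apply ((h2 p M M₁ hcop W w hW).2 _).1
    set A : M₁ := (-1) ^ (p - 1) * a with hA
    set α : M₁ := algebraMap M M₁ (algebraMap K M (al w)) with hα
    have hal0 : algebraMap K M (al w) ≠ 0 := by
      intro h
      have h3 := hR.unif w hw
      rw [h] at h3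
      unfold ordv at h3
      rw [map_zero, WithZero.log_zero] at h3
      norm_num at h3
    have hα0 : α ≠ 0 := fun h => hal0 ((map_eq_zero _).1 h)
    have hv0 : A * α ^ j * z ^ p ≠ 0 := by
      intro h
      have h3 := val_of_one hz
      rw [h, map_zero] at h3
      exact zero_ne_one h3
    have hA0 : A ≠ 0 := left_ne_zero_of_mul (left_ne_zero_of_mul hv0)
    have hz0 : z ≠ 0 := by
      rintro rfl
      apply hv0
      rw [zero_pow hp'.ne_zero, mul_zero]
    refine ⟨y * (z ^ i)⁻¹ * (α ^ (i * j))⁻¹, ?_⟩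
    have h3 := one_mul_one hy (one_inv_one (one_pow_one hz i))
    have h4 : algebraMap M M₁ ((x : M) * algebraMap K M (al w) ^ ((p - 1) * (i * j))) *
        (y * (z ^ i)⁻¹ * (α ^ (i * j))⁻¹) ^ p =
        algebraMap M M₁ (x : M) * A ^ i * y ^ p * ((A * α ^ j * z ^ p) ^ i)⁻¹ := by
      rw [map_mul, map_pow, ← hα]
      have e1 : α ^ ((p - 1) * (i * j)) = (α ^ (i * j)) ^ (p - 1) := by
        rw [← pow_mul, mul_comm]
      have e2 : (A * α ^ j * z ^ p) ^ i = A ^ i * α ^ (i * j) * (z ^ i) ^ p := by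
        rw [mul_pow, mul_pow, ← pow_mul, ← pow_mul, ← pow_mul, mul_comm j i, mul_comm p i]
      have e3 : (α ^ (i * j)) ^ p = (α ^ (i * j)) ^ (p - 1) * α ^ (i * j) := by
        rw [← pow_succ]
        congr 1
        have := hp'.pos
        omega
      rw [e1, e2, mul_pow, mul_pow, inv_pow, inv_pow, e3]
      have hB : α ^ (i * j) ≠ 0 := pow_ne_zero _ hα0
      have hBp : (α ^ (i * j)) ^ (p - 1) ≠ 0 := pow_ne_zero _ hB
      have hZ : (z ^ i) ^ p ≠ 0 := pow_ne_zero _ (pow_ne_zero _ hz0)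
      have hAi : A ^ i ≠ 0 := pow_ne_zero _ hA0
      generalize (α ^ (i * j)) ^ (p - 1) = B' at *
      generalize α ^ (i * j) = B at *
      generalize (z ^ i) ^ p = Z at *
      generalize A ^ i = Ai at *
      field_simp
    rw [h4]
    exact h3

end Pool.Agent.Helper13.RD
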